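import Mathlib
import Pool.Agent.K3h51.PI.Span

set_option autoImplicit false

/-!
# MP_eba1ef_gt: convex bodies whose symmetries induce all permutations of a spanning family

Let `K` be a convex body in `ℝ^n`, `n ≥ 2`, and let `v_1, …, v_N` be vectors which span `ℝ^n` such
that every permutation of these vectors is induced by a linear map that maps `K` into itself. No
central symmetry is assumed. Then `K` is covered by `2 ^ n` translates of its interior, as
conjectured by Levi, Hadwiger, Gohberg and Markus. The vectors are a basis (`K` is invariant under
all permutations of the coordinates), or `N = n + 1` and their sum is zero (`K` has all the
symmetries of a simplex).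

The starting file `PermutationSymmetric` treats the case of a basis and `K = -K`; its arguments for
one block `T` of coordinates are used, the rest is different, since a body which is not centrally
symmetric may need three directions for one block.

The proof for a basis (`Pool.Agent.K3h51.PI.PBody.ill`). Let `h` be the sum of the coordinates;
`L ≤ h ≤ H` on `K`. Let `F_s` be the section `h = s`. The lowest and the highest section are points
or facets.

(A) If one of them is a point, say the lowest one, then a small cap at this point is illuminated
by the direction `(1, …, 1)`, and for each proper set `S` of coordinates the direction which is
negative on `S`, positive off `S`, and a little downwards illuminates the other points whose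
coordinates in `S` are larger than the other ones.

(B) If the vertical directions illuminate all points of the highest and of the lowest section,
then the `2 ^ n - 2` horizontal directions and these two illuminate `K`.

(C) Otherwise assume that `- (1, …, 1)` does not illuminate some point of the highest section. Fix a
coordinate `z`, let `m = n - 1`. For each set `T` of the other coordinates two directions are found
that illuminate all points of type `T` (the coordinates in `T` are larger than the ones not in `T`,
and `x z` lies weakly between). As in `PermutationSymmetric` this is a planar problem for the shadow
`Q` of `K` under `(x z - h / n, h)`: with `t = |T|`, `κ = (t + 1) / (m - t)`,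
`κ' = (m - t + 1) / t`, `κ κ' > 1`, and the section `[-a, b]` of `Q`, the right end of the section
has to be illuminated only if `κ b ≤ a`, the left end only if `κ' a ≤ b`, so never both. Two
directions suffice except if both the lowest and the highest section have the same critical end,
say the right one, and the left end of some section `F_s` between is critical. In this case `F_s`
contains the vector which is `- a (s)` (plus `s / n`) off `T` and `κ' a (s)` on `T`; if `a (H)` were
less than `a (s)`, then all coordinates of the points in the highest section, moved to the level
`s`, would lie strictly between these two values, and a separation argument shows that the moved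
section is in the interior of `K`, against the assumption. So `a (s) ≤ a (H)`, hence the sections
do not become shorter to the left between the level `L` and a critical level `s`, and `F_s` is
longer to the right than the lowest one, by `κ κ' > 1`. Hence a direction which points upwards and a
little to the right illuminates the critical left ends and all points near the lowest section; the
other points are illuminated by a direction to the left, a little downwards.

If `v` is not a basis, then the prism `K × [-1, 1]` is invariant under the permutations of the basis
`(v i, 1)` of `ℝ^(n + 1)`, so it is covered by `2 ^ (n + 1)` translates of its interior; the ones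
which meet its top and the ones which meet its bottom are different and cover `K`
(`Pool.Agent.K3h51.PI.cover_span`).
-/

namespace Pool.Agent.Results.MP_eba1ef_gt.PermutationInvariant

open Pool.Agent.K3h51.PI

/-- **Main theorem.** -/
theorem result (n : ℕ) (hn : 2 ≤ n) (K : Set (EuclideanSpace ℝ (Fin n)))
    (hK : Convex ℝ K) (hKc : IsCompact K) (hKi : (interior K).Nonempty)
    (N : ℕ) (v : Fin N → EuclideanSpace ℝ (Fin n))
    (hv : Submodule.span ℝ (Set.range v) = ⊤)
    (hperm : ∀ σ : Equiv.Perm (Fin N),
      ∃ A : EuclideanSpace ℝ (Fin n) →ₗ[ℝ] EuclideanSpace ℝ (Fin n),
        (∀ i, A (v i) = v (σ i)) ∧ ∀ x ∈ K, A x ∈ K) :
    ∃ T : Finset (EuclideanSpace ℝ (Fin n)), T.card ≤ 2 ^ n ∧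
      K ⊆ ⋃ t ∈ T, (fun x => t + x) '' interior K := by
  obtain ⟨T, hT, h1⟩ := cover_span hn (by rw [finrank_euclideanSpace_fin]) K hK hKc hKi v hv hperm
  refine ⟨T, hT, fun x hx => ?_⟩
  obtain ⟨t, ht, h2⟩ := h1 x hx
  simp only [Set.mem_iUnion]
  exact ⟨t, ht, x - t, h2, by simp⟩

end Pool.Agent.Results.MP_eba1ef_gt.PermutationInvariant
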